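import Mathlib
import Pool.Agent.H29.RAlt

set_option autoImplicit false

namespace Pool.Agent.Results.MP_c4a975_al.CharTwo

/-- the additive subgroup spanned by all products `a * b` with `a ∈ A`, `b ∈ B` -/
def prod {R : Type} [NonUnitalNonAssocRing R] (A B : Set R) : Set R :=
  (AddSubgroup.closure {z | ∃ a ∈ A, ∃ b ∈ B, z = a * b} : AddSubgroup R)

/-- derived series -/
def derived {R : Type} [NonUnitalNonAssocRing R] (I : Set R) : ℕ → Set R
  | 0 => I
  | k + 1 => prod (derived I k) (derived I k)

/-- right powers; `rightPow I n` is the `(n+1)`-st right power -/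
def rightPow {R : Type} [NonUnitalNonAssocRing R] (I : Set R) : ℕ → Set R
  | 0 => I
  | n + 1 => prod (rightPow I n) I

/-- `I` is simple as a ring -/
def SimpleRing {R : Type} [NonUnitalNonAssocRing R] (I : Set R) : Prop :=
  prod I I ≠ {0} ∧ ∀ J : AddSubgroup R, (J : Set R) ⊆ I →
    (∀ a ∈ I, ∀ b ∈ J, a * b ∈ J ∧ b * a ∈ J) → (J : Set R) = {0} ∨ (J : Set R) = I

open Pool.Agent.H29.RAlt in
theorem result : ∃ (R : Type) (_ : NonUnitalNonAssocRing R),
    (∀ x y : R, (x * y) * y = x * (y * y)) ∧
    ∃ I : TwoSidedIdeal R, I ≠ ⊥ ∧ (∀ J : TwoSidedIdeal R, J ≤ I → J = ⊥ ∨ J = I) ∧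
      ¬ SimpleRing (I : Set R) ∧ (∀ k, derived (I : Set R) k ≠ {0}) ∧
      (∀ n, rightPow (I : Set R) n ≠ {0}) := by
  have h0 : e0 ∈ I := mem_I.mpr rfl
  have hne : e0 ≠ 0 := by decide
  have hp : ∀ A B : Set R, e0 ∈ A → e0 ∈ B → e0 ∈ prod A B := fun A B hA hB =>
    AddSubgroup.subset_closure ⟨e0, hA, e0, hB, by decide⟩
  refine ⟨R, inferInstance, ralt, I, ?_, minimal, ?_, ?_, ?_⟩
  · intro h
    rw [h] at h0
    exact hne (by simpa using h0)
  · rintro ⟨-, h⟩
    rcases h J (fun x hx => mem_I.mpr (mem_J.mp hx).2) (fun a ha b hb => by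
      have ha' := mem_I.mp ha
      rw [mem_J] at hb ⊢
      rw [mem_J]
      revert a b
      simp only [SetLike.mem_coe, mem_I]
      decide) with h | h
    · have : e1 ∈ (J : Set R) := mem_J.mpr (by decide)
      rw [h] at this
      exact absurd this (by simp only [Set.mem_singleton_iff]; decide)
    · have : e0 ∈ (J : Set R) := by rw [h]; exact h0
      exact absurd (mem_J.mp this) (by decide)
  · intro k hk
    have : e0 ∈ derived (I : Set R) k := by
      clear hk
      induction k with
      | zero => exact h0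
      | succ k ih => exact hp _ _ ih ih
    rw [hk] at this
    exact hne this
  · intro k hk
    have : e0 ∈ rightPow (I : Set R) k := by
      clear hk
      induction k with
      | zero => exact h0
      | succ k ih => exact hp _ _ ih h0
    rw [hk] at this
    exact hne this

end Pool.Agent.Results.MP_c4a975_al.CharTwo
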